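import Pool.Agent.H.MP_c35292_co.A

set_option autoImplicit false

namespace Pool.Agent.H.MP_c35292_co

lemma c3 : al (fun n => lab (X n 0) (X n 1) (X n 2) (X n 3) == R.getD (t2 n) 0) = true := by
  decide +kernel

end Pool.Agent.H.MP_c35292_co
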